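import Pool.Agent.H60.FG.Defs

set_option autoImplicit false

open scoped Classical

namespace Pool.Agent.H76.FG.G4

open Pool.Agent.H60.FG

theorem toWord_mk_red {ι : Type*} (w : List (ι × Bool)) (h : FreeGroup.IsReduced w) :
    (FreeGroup.mk w).toWord = w := by
  rw [FreeGroup.toWord_mk]; exact h.reduce_eq

theorem pf_G4_aux {ι : Type} (s : ι × Bool) (ψ : ι × FreeGroup ι → ℂ) (P : FreeGroup ι → ℂ)
    (e : ℝ) (hP : Pot ψ P) (he : 0 ≤ e) (hq : ∀ q ∈ Es s, ‖ψ q‖ ≤ e) :
    ∀ w : List (ι × Bool), FreeGroup.IsReduced w → w.head? = some s →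
      ‖P (FreeGroup.mk w) - P (FreeGroup.mk [s])‖ ≤ (w.length - 1 : ℕ) * e := by
  intro w
  induction w using List.reverseRecOn with
  | nil => intro _ h; simp at h
  | append_singleton w t ih =>
    intro hr hh
    rcases w with _ | ⟨a, w⟩
    · simp at hh; subst hh; simp
    · have has : a = s := by simpa using hh
      subst has
      have hr' : FreeGroup.IsReduced (a :: w) := hr.left_of_append
      have h1 := ih hr' (by simp)
      have hz : (FreeGroup.mk ((a :: w) ++ [t]) : FreeGroup ι) ∈ Hs a := by
        show _ = _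
        rw [toWord_mk_red _ hr]; simp
      have hz' : (FreeGroup.mk (a :: w) : FreeGroup ι) ∈ Hs a := by
        show _ = _
        rw [toWord_mk_red _ hr']; simp
      have key : ‖P (FreeGroup.mk ((a :: w) ++ [t])) - P (FreeGroup.mk (a :: w))‖ ≤ e := by
        obtain ⟨k, b⟩ := t
        have hmul : (FreeGroup.mk ((a :: w) ++ [(k, b)]) : FreeGroup ι)
          = FreeGroup.mk (a :: w) * FreeGroup.mk [(k, b)] := (FreeGroup.mul_mk).symm
        cases b with
        | true =>
          have hof : (FreeGroup.mk [(k, true)] : FreeGroup ι) = FreeGroup.of k := rfl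
          have hback : (FreeGroup.mk ((a :: w) ++ [(k, true)]) : FreeGroup ι) * (FreeGroup.of k)⁻¹
            = FreeGroup.mk (a :: w) := by rw [hmul, hof]; group
          have := hP k (FreeGroup.mk ((a :: w) ++ [(k, true)]))
          rw [hback] at this
          rw [norm_sub_rev, this]
          exact hq _ ⟨hz, by simpa only [hback] using hz'⟩
        | false =>
          have hof : (FreeGroup.mk [(k, false)] : FreeGroup ι) = (FreeGroup.of k)⁻¹ := rfl
          rw [hof] at hmul
          have := hP k (FreeGroup.mk (a :: w))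
          rw [← hmul] at this
          rw [this]
          exact hq _ ⟨hz', by simpa only [← hmul] using hz⟩
      calc ‖P (FreeGroup.mk ((a :: w) ++ [t])) - P (FreeGroup.mk [a])‖
          ≤ ‖P (FreeGroup.mk ((a :: w) ++ [t])) - P (FreeGroup.mk (a :: w))‖
            + ‖P (FreeGroup.mk (a :: w)) - P (FreeGroup.mk [a])‖ := norm_sub_le_norm_sub_add_norm_sub _ _ _
        _ ≤ e + ((a :: w).length - 1 : ℕ) * e := add_le_add key h1
        _ = (((a :: w) ++ [t]).length - 1 : ℕ) * e := by
          simp; ring

theorem pf_G4 : T_G4 := by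
  intro ι s ψ P e z hP he hq hz
  have h := pf_G4_aux s ψ P e hP he hq z.toWord FreeGroup.isReduced_toWord hz
  rw [FreeGroup.mk_toWord] at h
  exact h


end Pool.Agent.H76.FG.G4
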